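import Pool.Agent.W968.SC.Def

/-!
Project SC (helper968), subtask SC-PR: the construction is primitive recursive.
-/

set_option autoImplicit false

namespace Pool.Agent.W766.SC.Pr

open Nat.Partrec (Code)
open Pool.Agent.Results.MP_f7ace6_lc.SharpErshov
open Pool.Agent.W968.SC

variable {α : Type*} [Primcodable α]

theorem pr_kk {r : α → Rec} (h : Primrec r) : Primrec (fun a => kk (r a)) := Primrec.fst.comp h
theorem pr_t1 {r : α → Rec} (h : Primrec r) : Primrec (fun a => (r a).2) := Primrec.snd.comp h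
theorem pr_t2 {r : α → Rec} (h : Primrec r) : Primrec (fun a => (r a).2.2) :=
  Primrec.snd.comp (pr_t1 h)
theorem pr_t3 {r : α → Rec} (h : Primrec r) : Primrec (fun a => (r a).2.2.2) :=
  Primrec.snd.comp (pr_t2 h)
theorem pr_aa {r : α → Rec} (h : Primrec r) : Primrec (fun a => aa (r a)) :=
  Primrec.fst.comp (pr_t1 h)
theorem pr_bb {r : α → Rec} (h : Primrec r) : Primrec (fun a => bb (r a)) :=
  Primrec.fst.comp (pr_t2 h)
theorem pr_uu {r : α → Rec} (h : Primrec r) : Primrec (fun a => uu (r a)) :=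
  Primrec.fst.comp (pr_t3 h)
theorem pr_vv {r : α → Rec} (h : Primrec r) : Primrec (fun a => vv (r a)) :=
  Primrec.snd.comp (pr_t3 h)

theorem pr_gt {S : α → List Rec} {t : α → ℕ} (hS : Primrec S) (ht : Primrec t) :
    Primrec (fun a => (S a).getD (t a) d0) := (Primrec.list_getD d0).comp hS ht

theorem filter_eq (p : Rec → Bool) (l : List Rec) :
    l.filterMap (fun b => bif p b then some b else none) = l.filter p := by
  induction l with
  | nil => rfl
  | cons b l ih =>
    rw [List.filterMap_cons, List.filter_cons]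
    cases h : p b <;> simp [ih]

theorem pr_filter {S : α → List Rec} {p : α → Rec → Bool} (hS : Primrec S) (hp : Primrec₂ p) :
    Primrec (fun a => (S a).filter (p a)) := by
  have h1 : Primrec (fun a => (S a).filterMap (fun b => bif p a b then some b else none)) := by
    refine Primrec.listFilterMap (g := fun a b => bif p a b then some b else none) hS ?_
    exact Primrec.cond hp (Primrec.option_some.comp Primrec.snd) (Primrec.const none)
  exact h1.of_eq fun a => filter_eq _ _

theorem pr_geL {j : α → ℕ} {S : α → List Rec} (hj : Primrec j) (hS : Primrec S) :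
    Primrec (fun a => geL (j a) (S a)) := by
  unfold geL
  refine pr_filter (p := fun a r => decide (j a ≤ kk r)) hS ?_
  exact (Primrec.nat_le.comp (hj.comp Primrec.fst) (pr_kk Primrec.snd)).decide

theorem pr_eqL {j : α → ℕ} {S : α → List Rec} (hj : Primrec j) (hS : Primrec S) :
    Primrec (fun a => eqL (j a) (S a)) := by
  unfold eqL
  refine pr_filter (p := fun a r => decide (kk r = j a)) hS ?_
  exact (Primrec.eq.comp (pr_kk Primrec.snd) (hj.comp Primrec.fst)).decide

theorem pr_gp {B : α → ℕ × ℕ} {T : α → List Rec} {m : α → ℕ} (hB : Primrec B) (hT : Primrec T)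
    (hm : Primrec m) : Primrec (fun a => gp (B a) (T a) (m a)) := by
  unfold gp
  have h1 : Primrec (fun a => m a - 1) := Primrec.nat_sub.comp hm (Primrec.const 1)
  have h2 : Primrec (fun a => (m a - 1) / 2) := Primrec.nat_div.comp h1 (Primrec.const 2)
  refine Primrec.ite (Primrec.eq.comp hm (Primrec.const 0)) hB ?_
  refine Primrec.ite (Primrec.eq.comp (Primrec.nat_mod.comp h1 (Primrec.const 2))
    (Primrec.const 0)) ?_ ?_
  · exact (pr_uu (pr_gt hT h2)).pair (pr_aa (pr_gt hT h2))
  · exact (pr_bb (pr_gt hT h2)).pair (pr_vv (pr_gt hT h2))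

theorem pr_lasT {S : α → List Rec} (hS : Primrec S) : Primrec (fun a => lasT (S a)) := by
  unfold lasT
  exact pr_eqL (pr_kk (pr_gt hS (Primrec.nat_sub.comp (Primrec.list_length.comp hS)
    (Primrec.const 1)))) hS

theorem pr_foc {S : α → List Rec} (hS : Primrec S) : Primrec (fun a => foc (S a)) := by
  unfold foc
  exact pr_gp (Primrec.const (0, 1)) (pr_lasT hS) (Primrec.list_length.comp (pr_lasT hS))

variable {G : ℕ → ℕ → ℕ → ℕ → Bool} {N : ℕ → ℕ}
  (hG : Primrec (fun q : ℕ × ℕ × ℕ × ℕ => G q.1 q.2.1 q.2.2.1 q.2.2.2)) (hN : Primrec N)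

include hG hN in
theorem pr_bad {i s : α → ℕ} {r : α → Rec} (hi : Primrec i) (hs : Primrec s) (hr : Primrec r) :
    Primrec (fun a => bad (N (i a)) (G (i a)) (s a) (r a)) := by
  unfold bad
  exact Primrec.and.comp (Primrec.nat_lt.comp (pr_kk hr) (hN.comp hi)).decide
    (Primrec.not.comp (Low.pr_ori hG hi hs (pr_aa hr) (pr_bb hr)))

include hG hN in
theorem pr_idx {i s : α → ℕ} {S : α → List Rec} (hi : Primrec i) (hS : Primrec S)
    (hs : Primrec s) : Primrec (fun a => idx (N (i a)) (G (i a)) (S a) (s a)) := by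
  unfold idx
  refine Primrec.list_findIdx (p := fun a r => bad (N (i a)) (G (i a)) (s a) r) hS ?_
  exact pr_bad hG hN (hi.comp Primrec.fst) (hs.comp Primrec.fst) Primrec.snd

include hG hN in
theorem pr_cond {i s : α → ℕ} {S : α → List Rec} (hi : Primrec i) (hS : Primrec S)
    (hs : Primrec s) : PrimrecPred (fun a => idx (N (i a)) (G (i a)) (S a) (s a) < (S a).length) :=
  Primrec.nat_lt.comp (pr_idx hG hN hi hS hs) (Primrec.list_length.comp hS)

theorem pr_Z {s : α → ℕ} (c : ℕ) (hs : Primrec s) : Primrec (fun a => 2 * s a + c) :=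
  Primrec.nat_add.comp (Primrec.nat_mul.comp (Primrec.const 2) hs) (Primrec.const c)

include hG in
theorem pr_or0 {i s : α → ℕ} (hi : Primrec i) (hs : Primrec s) :
    PrimrecPred (fun a => G (i a) (2 * s a + 2) (2 * s a + 3) (s a) = true) :=
  Low.pr_eqTrue (Low.pr_G hG hi (pr_Z 2 hs) (pr_Z 3 hs) hs)

include hG hN in
theorem pr_newK {i s : α → ℕ} {S : α → List Rec} (hi : Primrec i) (hS : Primrec S)
    (hs : Primrec s) : Primrec (fun a => newK (N (i a)) (G (i a)) (S a) (s a)) := by
  unfold newK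
  exact Primrec.ite (pr_cond hG hN hi hS hs)
    (Primrec.succ.comp (pr_kk (pr_gt hS (pr_idx hG hN hi hS hs)))) (Primrec.const 0)

include hG hN in
theorem pr_newA {i s : α → ℕ} {S : α → List Rec} (hi : Primrec i) (hS : Primrec S)
    (hs : Primrec s) : Primrec (fun a => newA (N (i a)) (G (i a)) (S a) (s a)) := by
  unfold newA
  exact Primrec.ite (pr_cond hG hN hi hS hs) (pr_bb (pr_gt hS (pr_idx hG hN hi hS hs)))
    (Primrec.ite (pr_or0 hG hi hs) (pr_Z 2 hs) (pr_Z 3 hs))

include hG hN in
theorem pr_newB {i s : α → ℕ} {S : α → List Rec} (hi : Primrec i) (hS : Primrec S)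
    (hs : Primrec s) : Primrec (fun a => newB (N (i a)) (G (i a)) (S a) (s a)) := by
  unfold newB
  exact Primrec.ite (pr_cond hG hN hi hS hs) (pr_aa (pr_gt hS (pr_idx hG hN hi hS hs)))
    (Primrec.ite (pr_or0 hG hi hs) (pr_Z 3 hs) (pr_Z 2 hs))

include hG hN in
theorem pr_newG {i s : α → ℕ} {S : α → List Rec} (hi : Primrec i) (hS : Primrec S)
    (hs : Primrec s) : Primrec (fun a => newG (N (i a)) (G (i a)) (S a) (s a)) := by
  unfold newG
  exact pr_foc (pr_geL (pr_newK hG hN hi hS hs) hS)

include hG hN in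
theorem pr_next {i s : α → ℕ} {S : α → List Rec} (hi : Primrec i) (hS : Primrec S)
    (hs : Primrec s) : Primrec (fun a => next (N (i a)) (G (i a)) (S a) (s a)) := by
  unfold next
  refine Primrec.list_append.comp (pr_geL (pr_newK hG hN hi hS hs) hS) ?_
  refine Primrec.list_cons.comp ?_ (Primrec.const [])
  exact (pr_newK hG hN hi hS hs).pair ((pr_newA hG hN hi hS hs).pair
    ((pr_newB hG hN hi hS hs).pair ((Primrec.fst.comp (pr_newG hG hN hi hS hs)).pair
    (Primrec.snd.comp (pr_newG hG hN hi hS hs)))))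

include hG hN in
theorem pr_St {i s : α → ℕ} (hi : Primrec i) (hs : Primrec s) :
    Primrec (fun a => St (N (i a)) (G (i a)) (s a)) := by
  have h1 : Primrec (fun a => Nat.rec (motive := fun _ => List Rec) []
      (fun t IH => next (N (i a)) (G (i a)) IH t) (s a)) := by
    refine Primrec.nat_rec' (h := fun a (q : ℕ × List Rec) => next (N (i a)) (G (i a)) q.2 q.1)
      hs (Primrec.const []) ?_
    exact pr_next hG hN (hi.comp Primrec.fst) (Primrec.snd.comp Primrec.snd)
      (Primrec.fst.comp Primrec.snd)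
  refine h1.of_eq fun a => ?_
  induction s a with
  | zero => rfl
  | succ k ih => rw [St, ← ih]

include hG hN in
theorem pr_Gp {i s : α → ℕ} (hi : Primrec i) (hs : Primrec s) :
    Primrec (fun a => Gp (N (i a)) (G (i a)) (s a)) := by
  unfold Gp
  exact pr_newG hG hN hi (pr_St hG hN hi hs) hs

theorem pr_half {v : α → ℕ} (hv : Primrec v) : Primrec (fun a => (v a - 2) / 2) :=
  Primrec.nat_div.comp (Primrec.nat_sub.comp hv (Primrec.const 2)) (Primrec.const 2)

include hG hN in
theorem pr_lo {i v : α → ℕ} (hi : Primrec i) (hv : Primrec v) :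
    Primrec (fun a => lo (N (i a)) (G (i a)) (v a)) := by
  unfold lo
  exact Primrec.ite (Primrec.nat_lt.comp hv (Primrec.const 2)) (Primrec.const 0)
    (Primrec.fst.comp (pr_Gp hG hN hi (pr_half hv)))

include hG hN in
theorem pr_hi {i v : α → ℕ} (hi' : Primrec i) (hv : Primrec v) :
    Primrec (fun a => hi (N (i a)) (G (i a)) (v a)) := by
  unfold hi
  exact Primrec.ite (Primrec.nat_lt.comp hv (Primrec.const 2)) (Primrec.const 1)
    (Primrec.snd.comp (pr_Gp hG hN hi' (pr_half hv)))

include hG hN in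
theorem pr_Le {i x y : α → ℕ} (hi : Primrec i) (hx : Primrec x) (hy : Primrec y) :
    Primrec (fun a => Le (N (i a)) (G (i a)) (x a) (y a)) := by
  have hit : Primrec (fun a => (Low.stp (lo (N (i a)) (G (i a)))
      (W968.SC.hi (N (i a)) (G (i a))))^[x a + y a] (x a, y a)) := by
    refine Primrec.nat_iterate (h := fun a q => Low.stp (lo (N (i a)) (G (i a)))
      (W968.SC.hi (N (i a)) (G (i a))) q) (Primrec.nat_add.comp hx hy) (hx.pair hy) ?_
    have h1 : Primrec (fun z : α × (ℕ × ℕ) => z.2.1) := Primrec.fst.comp Primrec.snd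
    have h2 : Primrec (fun z : α × (ℕ × ℕ) => z.2.2) := Primrec.snd.comp Primrec.snd
    have hi' : Primrec (fun z : α × (ℕ × ℕ) => i z.1) := hi.comp Primrec.fst
    refine Primrec.ite (Primrec.eq.comp h1 h2) Primrec.snd ?_
    refine Primrec.ite (Primrec.nat_lt.comp h1 h2) (h1.pair (pr_lo hG hN hi' h2)) ?_
    exact Primrec.ite (Primrec.eq.comp h1 (Primrec.const 1)) Primrec.snd
      ((pr_hi hG hN hi' h1).pair h2)
  have h3 : PrimrecPred (fun a =>
      ((Low.stp (lo (N (i a)) (G (i a))) (W968.SC.hi (N (i a)) (G (i a))))^[x a + y a]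
        (x a, y a)).1 =
      ((Low.stp (lo (N (i a)) (G (i a))) (W968.SC.hi (N (i a)) (G (i a))))^[x a + y a]
        (x a, y a)).2) :=
    Primrec.eq.comp (Primrec.fst.comp hit) (Primrec.snd.comp hit)
  exact h3.decide.of_eq fun a => (Low.leF_iter _ _ _ _ _).symm

end Pool.Agent.W766.SC.Pr
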